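import Mathlib

set_option autoImplicit false

namespace Pool.Agent.H.MP_2870db_co

open Finset Function
open scoped Classical

variable {V C : Type}

inductive Rc (E : C → C → Prop) (a : C) : Finset C → C → Prop
  | base (T : Finset C) : a ∈ T → Rc E a T a
  | step (T : Finset C) (X Y : C) : X ∈ T → E X Y → Rc E a (T.erase X) Y → Rc E a T X

section
variable {E : C → C → Prop} {a : C}

lemma Rc.mem {T : Finset C} {X : C} (h : Rc E a T X) : X ∈ T := by
  cases h <;> assumption

lemma Rc.mono {T : Finset C} {X : C} (h : Rc E a T X) : ∀ T', T ⊆ T' → Rc E a T' X := by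
  induction h with
  | base T h => exact fun T' h' => .base _ (h' h)
  | step T X Y h1 h2 _ ih =>
    exact fun T' h' => .step _ _ Y (h' h1) h2 (ih _ (erase_subset_erase _ h'))

lemma Rc.split {T : Finset C} {Y : C} (h : Rc E a T Y) :
    ∀ X ∈ T, Rc E a (T.erase X) Y ∨ Rc E a T X := by
  induction h with
  | base T h =>
    intro X _
    by_cases e : X = a
    · exact Or.inr (by rw [e]; exact .base _ h)
    · exact Or.inl (.base _ (mem_erase.2 ⟨Ne.symm e, h⟩))
  | step T Y Z h1 h2 h3 ih =>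
    intro X hX
    by_cases e : X = Y
    · exact Or.inr (e ▸ .step _ _ Z h1 h2 h3)
    · rcases ih X (mem_erase.2 ⟨e, hX⟩) with h | h
      · exact Or.inl (.step _ _ Z (mem_erase.2 ⟨Ne.symm e, h1⟩) h2 (by rwa [erase_right_comm]))
      · exact Or.inr (h.mono _ (erase_subset _ _))

lemma Rc.head {T : Finset C} {X Y : C} (h : Rc E a T Y) (hX : X ∈ T) (e : E X Y) :
    Rc E a T X := (h.split X hX).elim (.step _ _ Y hX e) id

lemma Rc.restrict {T : Finset C} {X : C} (h : Rc E a T X) (K : Finset C) :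
    T ⊆ K → Rc E a (T.filter (Rc E a K)) X := by
  induction h with
  | base T h => exact fun h' => .base _ (mem_filter.2 ⟨h, .base _ (h' h)⟩)
  | step T X Y h1 h2 h3 ih =>
    intro h'
    refine .step _ _ Y (mem_filter.2 ⟨h1, (Rc.step _ _ Y h1 h2 h3).mono _ h'⟩) h2 ?_
    rw [← filter_erase]
    exact ih ((erase_subset _ _).trans h')

lemma Rc.congr {E' : C → C → Prop} {T : Finset C} {X : C} (h : Rc E a T X) :
    (∀ X ∈ T, ∀ Y ∈ T, E X Y → E' X Y) → Rc E' a T X := by
  induction h with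
  | base T h => exact fun _ => .base _ h
  | step T X Y h1 h2 h3 ih =>
    exact fun h' => .step _ _ Y h1 (h' _ h1 _ (mem_of_mem_erase h3.mem) h2)
      (ih fun _ e1 _ e2 => h' _ (mem_of_mem_erase e1) _ (mem_of_mem_erase e2))

lemma term {K : Finset C} (ha : a ∈ K) (hX : ∃ X, Rc E a K X ∧ X ≠ a) :
    ∃ (P : Finset C) (V0 : C), P.Nonempty ∧ P ⊆ K.filter (Rc E a K) ∧
      (∀ W ∈ P, W ≠ a ∧ ∀ X, Rc E a K X → X ≠ W →
        Rc E a ((K.filter (Rc E a K)).erase W) X) ∧
      ∀ W ∈ P, ∀ X, Rc E a K X → X ∉ P → X ≠ V0 → ¬ E W X := by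
  let S : C → Finset C := fun v => K.filter fun X => Rc E a K X ∧ X ≠ v ∧ ¬ Rc E a (K.erase v) X
  have am : ∀ {T X}, Rc E a T X → a ∈ T := by
    intro T X h
    induction h with
    | base T h => exact h
    | step T X Y _ _ _ ih => exact mem_of_mem_erase ih
  obtain ⟨v, hv, hm⟩ := exists_min_image (K.filter fun v => (S v).Nonempty) (fun v => (S v).card)
    (by
      obtain ⟨X, h1, h2⟩ := hX
      exact ⟨a, mem_filter.2 ⟨ha, X, mem_filter.2 ⟨h1.mem, h1, h2, fun h => by simpa using am h⟩⟩⟩)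
  refine ⟨S v, v, (mem_filter.1 hv).2, fun X h => ?_, fun W hW => ?_, fun W hW X h1 h2 h3 h4 => ?_⟩
  · exact mem_filter.2 ⟨(mem_filter.1 h).1, (mem_filter.1 h).2.1⟩
  · obtain ⟨w1, w2, w3, w4⟩ := mem_filter.1 hW
    have wa : W ≠ a := fun e => w4 (by rw [e] at w3 ⊢; exact .base _ (mem_erase.2 ⟨w3, ha⟩))
    refine ⟨wa, fun X h1 h2 => ?_⟩
    rw [← filter_erase]
    refine Rc.restrict ?_ K (erase_subset _ _)
    by_contra h3
    have h4 := hm W (mem_filter.2 ⟨w1, X, mem_filter.2 ⟨h1.mem, h1, h2, h3⟩⟩)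
    refine absurd (card_lt_card ⟨fun Y hY => ?_, fun h => ?_⟩) (not_lt.2 h4)
    · obtain ⟨y1, y2, y3, y4⟩ := mem_filter.1 hY
      have key : ∀ Z, Rc E a (K.erase v) Z → Rc E a ((K.erase W).erase v) Z := fun Z hZ => by
        rw [erase_right_comm]
        exact (hZ.split W (mem_erase.2 ⟨w3, w1⟩)).resolve_right w4
      refine mem_filter.2 ⟨y1, y2, ?_, fun h => y4 ((key _ h).mono _ (erase_subset _ _))⟩
      rintro rfl
      cases y2 with
      | base _ _ => exact y4 (.base _ (mem_erase.2 ⟨y3, ha⟩))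
      | step _ _ Z _ e h => exact y4 (.step _ _ Z (mem_erase.2 ⟨y3, y1⟩) e (key _ h))
    · exact (mem_filter.1 (h hW)).2.2.1 rfl
  · obtain ⟨w1, w2, w3, w4⟩ := mem_filter.1 hW
    refine w4 (Rc.head ?_ (mem_erase.2 ⟨w3, w1⟩) h4)
    by_contra h5
    exact h2 (mem_filter.2 ⟨h1.mem, h1, h3, h5⟩)

end

def Pr (G : SimpleGraph V) (U : Finset V) (K : Finset C) (f : V → C) : Prop :=
  (∀ v ∈ U, f v ∈ K) ∧ ∀ v ∈ U, ∀ w ∈ U, G.Adj v w → f v ≠ f w

noncomputable def cnt (U : Finset V) (f : V → C) (i : C) : ℕ := #{v ∈ U | f v = i}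

variable {G : SimpleGraph V} {U : Finset V} {K : Finset C} {f : V → C}

lemma cnt_erase {v : V} (hv : v ∈ U) (f : V → C) (i : C) :
    cnt U f i = cnt (U.erase v) f i + if i = f v then 1 else 0 := by
  conv_lhs => rw [← insert_erase hv]
  unfold cnt
  rw [filter_insert]
  by_cases e : i = f v
  · rw [if_pos e.symm, if_pos e, card_insert_of_notMem (by simp)]
  · rw [if_neg (Ne.symm e), if_neg e, add_zero]

lemma cnt_update {v : V} (hv : v ∈ U) (f : V → C) (X i : C) :
    cnt U (update f v X) i = cnt (U.erase v) f i + if i = X then 1 else 0 := by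
  rw [cnt_erase hv, update_self]
  congr 1
  unfold cnt
  congr 1
  exact filter_congr fun w hw => by rw [update_of_ne (ne_of_mem_erase hw)]

lemma Pr.sub {U' : Finset V} (h : Pr G U K f) (e : U' ⊆ U) : Pr G U' K f :=
  ⟨fun v hv => h.1 v (e hv), fun v hv w hw => h.2 v (e hv) w (e hw)⟩

lemma Pr.update {v : V} {X : C} (h : Pr G (U.erase v) K f) (hX : X ∈ K)
    (hv : ∀ w ∈ U, G.Adj v w → f w ≠ X) : Pr G U K (update f v X) := by
  refine ⟨fun u hu => ?_, fun u hu w hw e => ?_⟩
  · by_cases e : u = v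
    · rwa [e, update_self]
    · rw [update_of_ne e]; exact h.1 u (mem_erase.2 ⟨e, hu⟩)
  · by_cases e1 : u = v
    · subst e1
      rw [update_self, update_of_ne e.ne']
      exact (hv w hw e).symm
    · by_cases e2 : w = v
      · subst e2
        rw [update_self, update_of_ne e.ne]
        exact hv u hu e.symm
      · rw [update_of_ne e1, update_of_ne e2]
        exact h.2 u (mem_erase.2 ⟨e1, hu⟩) w (mem_erase.2 ⟨e2, hw⟩) e

def Mv (G : SimpleGraph V) (U : Finset V) (f : V → C) (X Y : C) : Prop :=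
  ∃ v ∈ U, f v = X ∧ ∀ w ∈ U, G.Adj v w → f w ≠ Y

lemma shift {a X : C} {T : Finset C} (h : Rc (Mv G U f) a T X) (hf : Pr G U K f) : T ⊆ K →
    ∃ g, Pr G U K g ∧ (∀ v, f v ∉ T → g v = f v) ∧ (∀ v, f v ∈ T → g v ∈ T) ∧
      (∀ v, g v = X → f v = X) ∧
      ∀ i, cnt U g i + (if i = X then 1 else 0) = cnt U f i + if i = a then 1 else 0 := by
  induction h with
  | base T h => exact fun _ => ⟨f, hf, fun _ _ => rfl, fun _ h => h, fun _ h => h, fun _ => rfl⟩
  | step T X Y h1 h2 h3 ih =>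
    intro hT
    obtain ⟨g, g1, g2, g3, g4, g5⟩ := ih ((erase_subset _ _).trans hT)
    obtain ⟨v, hv, e, hm⟩ := h2
    have hY := mem_of_mem_erase h3.mem
    have gv : g v = X := by rw [g2 v (by simp [e]), e]
    refine ⟨update g v Y, (g1.sub (erase_subset _ _)).update (hT hY)
      fun w hw e' h => hm w hw e' (g4 w h), fun u hu => ?_, fun u hu => ?_, fun u hu => ?_,
      fun i => ?_⟩
    · have : u ≠ v := fun h => hu (by rw [h, e]; exact h1)
      rw [update_of_ne this, g2 u fun h => hu (mem_of_mem_erase h)]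
    · by_cases e' : u = v
      · rwa [e', update_self]
      · rw [update_of_ne e']
        by_cases h : f u ∈ T.erase X
        · exact mem_of_mem_erase (g3 u h)
        · rwa [g2 u h]
    · by_cases e' : u = v
      · rw [e', e]
      · rw [update_of_ne e'] at hu
        by_cases h : f u ∈ T.erase X
        · have := g3 u h
          simp [hu] at this
        · rw [← g2 u h, hu]
    · rw [← g5 i, cnt_update hv, cnt_erase hv g, gv]
      ring

lemma recol {R : Finset C} {g : V → C} (hf : Pr G U K f) (hR : R ⊆ K)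
    (hg : Pr G (U.filter (f · ∈ R)) R g) : ∃ h, Pr G U K h ∧ (∀ v, f v ∉ R → h v = f v) ∧
      (∀ v ∈ U, f v ∈ R → h v ∈ R) ∧ (∀ i, i ∉ R → cnt U h i = cnt U f i) ∧
      ∀ i ∈ R, cnt U h i = cnt (U.filter (f · ∈ R)) g i := by
  have g1 : ∀ v ∈ U, f v ∈ R → g v ∈ R := fun v h1 h2 => hg.1 v (mem_filter.2 ⟨h1, h2⟩)
  refine ⟨fun v => if f v ∈ R then g v else f v, ⟨fun v hv => ?_, fun v hv w hw e => ?_⟩,
    fun v h => if_neg h, fun v h1 h2 => ?_, fun i hi => ?_, fun i hi => ?_⟩
  · dsimp only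
    split_ifs with h
    exacts [hR (g1 v hv h), hf.1 v hv]
  · dsimp only
    split_ifs with h1 h2 h2
    · exact hg.2 v (mem_filter.2 ⟨hv, h1⟩) w (mem_filter.2 ⟨hw, h2⟩) e
    · exact fun h => h2 (h ▸ g1 v hv h1)
    · exact fun h => h1 (h ▸ g1 w hw h2)
    · exact hf.2 v hv w hw e
  · dsimp only
    rw [if_pos h2]; exact g1 v h1 h2
  · unfold cnt
    congr 1
    refine filter_congr fun v hv => ?_
    dsimp only
    split_ifs with h
    · exact iff_of_false (fun e => hi (e ▸ g1 v hv h)) fun e => hi (e ▸ h)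
    · rfl
  · unfold cnt
    rw [filter_filter]
    congr 1
    refine filter_congr fun v hv => ?_
    dsimp only
    split_ifs with h
    · simp [h]
    · exact iff_of_false (fun e => h (e ▸ hi)) fun e => h e.1

lemma free (f : V → C) {R : Finset C} {v : V} (h : #{w ∈ U | G.Adj v w} < #R) :
    ∃ c ∈ R, ∀ w ∈ U, G.Adj v w → f w ≠ c := by
  obtain ⟨c, h1, h2⟩ := exists_mem_notMem_of_card_lt_card
    (lt_of_le_of_lt (card_image_le (f := f)) h)
  exact ⟨c, h1, fun w hw e h => h2 (mem_image.2 ⟨w, mem_filter.2 ⟨hw, e⟩, h⟩)⟩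

lemma sum_cnt (U : Finset V) (f : V → C) (T : Finset C) :
    ∑ i ∈ T, cnt U f i = #{v ∈ U | f v ∈ T} := by
  unfold cnt
  exact sum_card_fiberwise_eq_card_filter _ _ _

lemma start [Nonempty C] (U : Finset V) : ∀ n : C → ℕ, ∑ i ∈ K, n i = #U →
    ∃ f : V → C, (∀ v ∈ U, f v ∈ K) ∧ ∀ i ∈ K, cnt U f i = n i := by
  induction U using Finset.induction_on with
  | empty =>
    intro n h
    refine ⟨fun _ => Classical.arbitrary C, by simp, fun i hi => ?_⟩
    rw [card_empty, sum_eq_zero_iff] at h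
    simp [cnt, h i hi]
  | insert v U hv ih =>
    intro n h
    rw [card_insert_of_notMem hv] at h
    obtain ⟨c, hc, h0⟩ := exists_ne_zero_of_sum_ne_zero (h ▸ Nat.succ_ne_zero _ : ∑ i ∈ K, n i ≠ 0)
    obtain ⟨f, f1, f2⟩ := ih (update n c (n c - 1)) (by
      rw [sum_update_of_mem hc]
      rw [← add_sum_erase _ _ hc, ← sdiff_singleton_eq_erase] at h
      omega)
    refine ⟨update f v c, fun u hu => ?_, fun i hi => ?_⟩
    · by_cases e : u = v
      · rwa [e, update_self]
      · rw [update_of_ne e]; exact f1 u ((mem_insert.1 hu).resolve_left e)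
    · rw [cnt_update (mem_insert_self _ _), erase_insert hv, f2 i hi]
      by_cases e : i = c
      · rw [e, update_self, if_pos rfl]; omega
      · rw [update_of_ne e, if_neg e, add_zero]

end Pool.Agent.H.MP_2870db_co
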