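import Pool.Agent.H.MP_2870db_co.A

set_option autoImplicit false

namespace Pool.Agent.H.MP_2870db_co

open Finset Function
open scoped Classical

variable {V C : Type} {G : SimpleGraph V} {U : Finset V} {K A : Finset C} {f : V → C} {k s : ℕ}

lemma deg1 {v : V} (h : #{w ∈ U | G.Adj v w} < k) {T : Finset C} (hT : T ⊆ A) :
    ∑ i ∈ T, cnt (U.filter (G.Adj v)) f i + #((U.filter (f · ∉ A)).filter (G.Adj v)) < k := by
  rw [sum_cnt, filter_comm (f · ∉ A)]
  refine lt_of_le_of_lt ?_ h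
  rw [← card_filter_add_card_filter_not (s := U.filter (G.Adj v)) (f · ∈ A)]
  exact Nat.add_le_add_right (card_le_card (monotone_filter_right _ fun w _ h => hT h)) _

lemma d_pos {v : V} {i : C} (h : ¬ ∀ w ∈ U, G.Adj v w → f w ≠ i) :
    1 ≤ cnt (U.filter (G.Adj v)) f i := by
  push Not at h
  obtain ⟨w, h1, h2, h3⟩ := h
  exact card_pos.2 ⟨w, mem_filter.2 ⟨mem_filter.2 ⟨h1, h2⟩, h3⟩⟩

lemma deg2 {v : V} (h : #{w ∈ U | G.Adj v w} < k) {T : Finset C} (hT : T ⊆ A)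
    (h' : ∀ i ∈ T, ¬ ∀ w ∈ U, G.Adj v w → f w ≠ i) :
    #T + #((U.filter (f · ∉ A)).filter (G.Adj v)) < k := by
  refine lt_of_le_of_lt (Nat.add_le_add_right ?_ _) (deg1 h hT)
  rw [card_eq_sum_ones]
  exact sum_le_sum fun i hi => d_pos (h' i hi)

lemma dc (B Z : Finset V) (wt : V → ℕ) : ∑ y ∈ B, ∑ z ∈ Z.filter (G.Adj y), wt z =
    ∑ z ∈ Z, wt z * #(B.filter (G.Adj z)) := by
  simp only [sum_filter, card_filter, mul_sum]
  rw [sum_comm]
  refine sum_congr rfl fun z _ => sum_congr rfl fun y _ => ?_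
  by_cases h : G.Adj y z
  · simp [h, h.symm]
  · rw [if_neg h, if_neg fun e => h e.symm, mul_zero]

lemma c1 {a : C} (hdeg : ∀ v ∈ U, #{w ∈ U | G.Adj v w} < k)
    (hB : ∀ y ∈ U, f y ∉ A → ¬ ∀ w ∈ U, G.Adj y w → f w ≠ a) (hc : cnt U f a < s)
    (hcard : (k - 1) * s < #(U.filter (f · ∉ A))) : False := by
  have h := dc (G := G) (U.filter (f · ∉ A)) (U.filter (f · = a)) fun _ => 1
  have h1 : #(U.filter (f · ∉ A)) ≤ ∑ y ∈ U.filter (f · ∉ A),
      ∑ z ∈ (U.filter (f · = a)).filter (G.Adj y), 1 := by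
    rw [card_eq_sum_ones]
    refine sum_le_sum fun y hy => ?_
    rw [← card_eq_sum_ones, filter_comm]
    exact d_pos (hB y (mem_filter.1 hy).1 (mem_filter.1 hy).2)
  have h2 : ∑ z ∈ U.filter (f · = a), 1 * #((U.filter (f · ∉ A)).filter (G.Adj z)) ≤
      cnt U f a * (k - 1) := by
    refine sum_le_card_nsmul _ _ _ fun z hz => ?_
    have := deg2 (f := f) (hdeg z (mem_filter.1 hz).1) (empty_subset A) (by simp)
    omega
  have h3 := Nat.mul_le_mul_right (k - 1) hc.le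
  rw [mul_comm s] at h3
  omega

lemma c2 {W : C} {b : ℕ} (hB : ∀ y ∈ U, f y ∉ A → ¬ ∀ w ∈ U, G.Adj y w → f w ≠ W)
    (hc : cnt U f W ≤ s) (hcard : b * s < #(U.filter (f · ∉ A)))
    (h1 : ∀ z ∈ U, f z = W → (∃ y ∈ U, f y ∉ A ∧ G.Adj z y ∧ cnt (U.filter (G.Adj y)) f W = 1) →
      #((U.filter (f · ∉ A)).filter (G.Adj z)) ≤ b)
    (h2 : ∀ z ∈ U, f z = W → #((U.filter (f · ∉ A)).filter (G.Adj z)) ≤ 2 * b) : False := by
  let wt : V → ℕ := fun z =>
    if ∃ y ∈ U, f y ∉ A ∧ G.Adj z y ∧ cnt (U.filter (G.Adj y)) f W = 1 then 2 else 1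
  have h := dc (G := G) (U.filter (f · ∉ A)) (U.filter (f · = W)) wt
  have h3 : #(U.filter (f · ∉ A)) * 2 ≤ ∑ y ∈ U.filter (f · ∉ A),
      ∑ z ∈ (U.filter (f · = W)).filter (G.Adj y), wt z := by
    rw [← smul_eq_mul]
    refine card_nsmul_le_sum _ _ _ fun y hy => ?_
    obtain ⟨y1, y2⟩ := mem_filter.1 hy
    have e := d_pos (hB y y1 y2)
    rw [filter_comm]
    rcases e.eq_or_lt with e | e
    · refine le_trans ?_ (card_nsmul_le_sum _ _ 2 fun z hz => ?_)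
      · exact (Nat.mul_le_mul_right 2 e.le :)
      · exact (if_pos ⟨y, y1, y2, (mem_filter.1 (mem_filter.1 hz).1).2.symm, e.symm⟩).ge
    · refine le_trans ?_ (card_nsmul_le_sum _ _ 1 fun z _ => ?_)
      · exact (Nat.mul_le_mul_right 1 e :)
      · simp only [wt]
        split_ifs <;> omega
  have h4 : ∑ z ∈ U.filter (f · = W), wt z * #((U.filter (f · ∉ A)).filter (G.Adj z)) ≤
      cnt U f W * (2 * b) := by
    refine sum_le_card_nsmul _ _ _ fun z hz => ?_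
    obtain ⟨z1, z2⟩ := mem_filter.1 hz
    simp only [wt]
    split_ifs with e
    · exact Nat.mul_le_mul_left 2 (h1 z z1 z2 e)
    · rw [one_mul]; exact h2 z z1 z2
  have h5 := Nat.mul_le_mul_right (2 * b) hc
  nlinarith

lemma c3 {P : Finset C} {b : ℕ} (hdeg : ∀ v ∈ U, #{w ∈ U | G.Adj v w} < #A + b) (hP : P ⊆ A)
    (hB : ∀ y ∈ U, f y ∉ A → ∀ i ∈ A, ¬ ∀ w ∈ U, G.Adj y w → f w ≠ i)
    (hc : ∀ i ∈ A, cnt U f i ≤ s) (hcard : b * s < #(U.filter (f · ∉ A))) (hb : b ≤ #P) :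
    ∃ z ∈ U, f z ∈ P ∧ ∃ y₁ ∈ U, ∃ y₂ ∈ U, f y₁ ∉ A ∧ f y₂ ∉ A ∧ y₁ ≠ y₂ ∧ ¬ G.Adj y₁ y₂ ∧
      G.Adj z y₁ ∧ G.Adj z y₂ ∧ cnt (U.filter (G.Adj y₁)) f (f z) = 1 ∧
      cnt (U.filter (G.Adj y₂)) f (f z) = 1 := by
  set B := U.filter (f · ∉ A) with hBd
  let Ind : Finset V → Prop := fun I => ∀ x ∈ I, ∀ y ∈ I, ¬ G.Adj x y
  obtain ⟨I, hI, hm⟩ := exists_max_image
    (@filter _ Ind (Classical.decPred _) B.powerset) card ⟨∅, by simp [Ind]⟩
  simp only [mem_filter] at hI hm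
  obtain ⟨i1, i2⟩ := hI
  rw [mem_powerset] at i1
  have dom : #B ≤ ∑ y ∈ I, (#(B.filter (G.Adj y)) + 1) := by
    refine le_trans (card_le_card (t := I.biUnion fun y => insert y (B.filter (G.Adj y)))
      fun x hx => ?_) (card_biUnion_le.trans (sum_le_sum fun y _ => card_insert_le _ _))
    by_contra h
    simp only [mem_biUnion, mem_insert, mem_filter, not_exists, not_and, not_or] at h
    have hxI : x ∉ I := fun e => (h x e).1 rfl
    have := hm (insert x I) ⟨mem_powerset.2 (insert_subset hx i1), ?_⟩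
    · rw [card_insert_of_notMem hxI] at this
      omega
    · intro u hu v hv e
      rcases mem_insert.1 hu with hu | hu <;> rcases mem_insert.1 hv with hv | hv
      · exact e.ne (hu.trans hv.symm)
      · exact (h v hv).2 hx (hu ▸ e.symm)
      · exact (h u hu).2 hx (hv ▸ e)
      · exact i2 u hu v hv e
  have d2 : ∀ y ∈ I, #(B.filter (G.Adj y)) + 1 ≤ b := fun y hy => by
    obtain ⟨y1, y2⟩ := mem_filter.1 (i1 hy)
    have := deg2 (hdeg y y1) (Subset.refl A) (hB y y1 y2)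
    rw [← hBd] at this
    omega
  have hs : s ≤ #I := by
    have : #B ≤ #I * b := dom.trans (sum_le_card_nsmul _ _ _ d2)
    by_contra h
    have := Nat.mul_le_mul_right b (not_le.1 h).le
    nlinarith
  let Z := U.filter (f · ∈ P)
  let r : V → V → Prop := fun y z => G.Adj y z ∧ cnt (U.filter (G.Adj y)) f (f z) = 1
  have d3 : ∀ y ∈ I, #P + (#(B.filter (G.Adj y)) + 1) ≤ #(Z.filter (r y)) + b := fun y hy => by
    obtain ⟨y1, y2⟩ := mem_filter.1 (i1 hy)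
    have e1 := deg1 (f := f) (hdeg y y1) (Subset.refl A)
    rw [← hBd] at e1
    let Q := P.filter fun i => cnt (U.filter (G.Adj y)) f i = 1
    have e2 : #Q ≤ #(Z.filter (r y)) := by
      refine le_trans (card_le_card fun i hi => ?_) (card_image_le (f := f))
      obtain ⟨q1, q2⟩ := mem_filter.1 hi
      obtain ⟨z, hz⟩ := card_pos.1 (q2.ge : 0 < _)
      obtain ⟨z1, rfl⟩ := mem_filter.1 hz
      exact mem_image.2 ⟨z, mem_filter.2 ⟨mem_filter.2 ⟨(mem_filter.1 z1).1, q1⟩,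
        (mem_filter.1 z1).2, q2⟩, rfl⟩
    have e3 : ∑ i ∈ A, (1 + if i ∈ P \ Q then 1 else 0) ≤
        ∑ i ∈ A, cnt (U.filter (G.Adj y)) f i := by
      refine sum_le_sum fun i hi => ?_
      have := d_pos (hB y y1 y2 i hi)
      split_ifs with e
      · have : cnt (U.filter (G.Adj y)) f i ≠ 1 := fun h =>
          (mem_sdiff.1 e).2 (mem_filter.2 ⟨(mem_sdiff.1 e).1, h⟩)
        omega
      · omega
    rw [sum_add_distrib, ← card_eq_sum_ones, ← card_filter, filter_mem_eq_inter,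
      inter_eq_right.2 (sdiff_subset.trans hP), card_sdiff_of_subset (filter_subset _ _)] at e3
    change #A + (#P - #Q) ≤ _ at e3
    omega
  have d4 := sum_le_sum d3
  rw [sum_add_distrib, sum_add_distrib (f := fun y => #(Z.filter (r y))), sum_const, sum_const,
    smul_eq_mul, smul_eq_mul] at d4
  have d5 : #Z ≤ #P * s := by
    rw [← sum_cnt]
    exact sum_le_card_nsmul _ _ _ fun i hi => hc i (hP hi)
  have d6 : ∑ y ∈ I, #(Z.filter (r y)) = ∑ z ∈ Z, #(I.filter (r · z)) := by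
    simp only [card_filter]
    exact sum_comm
  by_contra hn
  have d7 : ∑ z ∈ Z, #(I.filter (r · z)) ≤ #Z * 1 := by
    refine sum_le_card_nsmul _ _ _ fun z hz => card_le_one.2 fun y₁ h₁ y₂ h₂ => ?_
    by_contra e
    obtain ⟨a1, a2, a3⟩ := mem_filter.1 h₁
    obtain ⟨b1, b2, b3⟩ := mem_filter.1 h₂
    exact hn ⟨z, (mem_filter.1 hz).1, (mem_filter.1 hz).2, y₁, (mem_filter.1 (i1 a1)).1, y₂,
      (mem_filter.1 (i1 b1)).1, (mem_filter.1 (i1 a1)).2, (mem_filter.1 (i1 b1)).2, e,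
      i2 _ a1 _ b1, a2.symm, b2.symm, a3, b3⟩
  obtain ⟨c, hc⟩ := Nat.exists_eq_add_of_le hb
  have := Nat.mul_le_mul_right c hs
  rw [hc] at d4 d5
  nlinarith

end Pool.Agent.H.MP_2870db_co
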