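import Pool.Agent.H.MP_2870db_co.B

set_option autoImplicit false

namespace Pool.Agent.H.MP_2870db_co

open Finset Function
open scoped Classical

variable {V C : Type} {G : SimpleGraph V} {U : Finset V} {K A : Finset C} {f : V → C} {k s : ℕ}
  {n : C → ℕ}

def Ex (G : SimpleGraph V) (U : Finset V) (K : Finset C) (n : C → ℕ) : Prop :=
  ∃ g, Pr G U K g ∧ ∀ i ∈ K, cnt U g i = n i

lemma uniq {y z w : V} {W : C} (h : cnt (U.filter (G.Adj y)) f W = 1) (z1 : z ∈ U)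
    (z2 : G.Adj y z) (z3 : f z = W) (w1 : w ∈ U) (w2 : G.Adj y w) (w3 : f w = W) : w = z :=
  card_le_one.1 h.le _ (mem_filter.2 ⟨mem_filter.2 ⟨w1, w2⟩, w3⟩) _
    (mem_filter.2 ⟨mem_filter.2 ⟨z1, z2⟩, z3⟩)

lemma claim1 {a X : C} {z y : V} (hf : Pr G U K f) (hA : A ⊆ K)
    (hn : ∀ i ∈ A, cnt U f i + (if i = a then 1 else 0) = n i) (hz : z ∈ U) (hy : y ∈ U)
    (hW : f z ∈ A) (hy' : f y ∉ A) (hzy : G.Adj z y) (h1 : cnt (U.filter (G.Adj y)) f (f z) = 1)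
    (hX : Rc (Mv G U f) a (A.erase (f z)) X) (hm : ∀ w ∈ U, G.Adj z w → f w ≠ X)
    (hg : Ex G ((U.filter (f · ∉ A)).erase y) (K \ A) n) : Ex G U K n := by
  obtain ⟨g, g1, g2, g3, g4, g5⟩ := shift hX hf ((erase_subset _ _).trans hA)
  obtain ⟨x1, x2⟩ := mem_erase.1 hX.mem
  have gz : g z = f z := g2 z (by simp)
  have gy : update g z X y = f y := by
    rw [update_of_ne hzy.ne', g2 y fun h => hy' (mem_of_mem_erase h)]
  have p2 : Pr G U K (update g z X) :=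
    (g1.sub (erase_subset _ _)).update (hA x2) fun w hw e h => hm w hw e (g4 w h)
  have p3 : Pr G U K (update (update g z X) y (f z)) := by
    refine (p2.sub (erase_subset _ _)).update (hA hW) fun w hw e h => ?_
    by_cases e' : w = z
    · rw [e', update_self] at h
      exact x1 h
    · rw [update_of_ne e'] at h
      by_cases e2 : f w ∈ A.erase (f z)
      · have := g3 w e2
        simp [h] at this
      · exact e' (uniq h1 hz hzy.symm rfl hw e (by rw [← g2 w e2, h]))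
  have e : U.filter (fun v => update (update g z X) y (f z) v ∈ K \ A) =
      (U.filter (f · ∉ A)).erase y := by
    ext v
    simp only [mem_filter, mem_erase, mem_sdiff]
    by_cases e1 : v = y
    · simp [e1, hW]
    rw [update_of_ne e1]
    by_cases e2 : v = z
    · simp [e2, x2, hW]
    rw [update_of_ne e2]
    by_cases e3 : f v ∈ A.erase (f z)
    · simp [mem_of_mem_erase e3, mem_of_mem_erase (g3 v e3)]
    · rw [g2 v e3]
      exact ⟨fun h => ⟨e1, h.1, h.2.2⟩, fun h => ⟨h.2.1, hf.1 v h.2.1, h.2.2⟩⟩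
  obtain ⟨u, u1, u2⟩ := hg
  rw [← e] at u1 u2
  obtain ⟨h, h1, -, -, h2, h3⟩ := recol p3 sdiff_subset u1
  refine ⟨h, h1, fun i hi => ?_⟩
  by_cases e : i ∈ K \ A
  · rw [h3 i e, u2 i e]
  · have hi' : i ∈ A := by simpa [hi] using e
    have a1 := cnt_erase hy (update g z X) i
    have a2 := cnt_erase hz g i
    have a3 := cnt_update hz g X i
    rw [gy, if_neg (fun h : i = f y => hy' (h ▸ hi'))] at a1
    rw [gz] at a2
    rw [h2 i e, cnt_update hy, ← hn i hi', ← g5 i]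
    omega

lemma claim4 {a : C} {z y₁ y₂ : V} (hf : Pr G U K f) (hA : A ⊆ K) (ha : a ∈ A)
    (hn : ∀ i ∈ A, cnt U f i + (if i = a then 1 else 0) = n i) (hz : z ∈ U) (hy₁ : y₁ ∈ U)
    (hy₂ : y₂ ∈ U) (hW : f z ∈ A) (hy₁' : f y₁ ∉ A) (hy₂' : f y₂ ∉ A) (hne : y₁ ≠ y₂)
    (hna : ¬ G.Adj y₁ y₂) (hz₁ : G.Adj z y₁) (hz₂ : G.Adj z y₂)
    (h₁ : cnt (U.filter (G.Adj y₁)) f (f z) = 1) (h₂ : cnt (U.filter (G.Adj y₂)) f (f z) = 1)
    (hT : ∀ X ∈ A, X ≠ f z → Rc (Mv G U f) a (A.erase (f z)) X)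
    (hw : ∃ Y ∈ A, Y ≠ f z ∧ Mv G U f (f z) Y)
    (hm : ∀ X ∈ A, X ≠ f z → ¬ ∀ w ∈ U, G.Adj z w → f w ≠ X)
    (hd : #((U.filter (f · ∉ A)).filter (G.Adj z)) ≤ #(K \ A))
    (hg : Ex G ((U.filter (f · ∉ A)).erase y₁) (K \ A) n) :
    ∃ h c, Pr G U K h ∧
      (∀ i ∈ K, cnt U h i + (if i = a then 1 else 0) = n i + if i = c then 1 else 0) ∧ c ∈ K ∧
      (∀ X ∈ A, Rc (Mv G U h) a K X) ∧ ∃ Y ∈ K \ A, Rc (Mv G U h) a K Y := by
  have p1 : Pr G (U.erase z) K (update f y₁ (f z)) :=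
    (hf.sub ((erase_subset _ _).trans (erase_subset _ _))).update (hA hW) fun w hw e h =>
      ne_of_mem_erase hw (uniq h₁ hz hz₁.symm rfl (mem_of_mem_erase hw) e h)
  have e : (U.erase z).filter (fun v => update f y₁ (f z) v ∈ K \ A) =
      (U.filter (f · ∉ A)).erase y₁ := by
    ext v
    simp only [mem_filter, mem_erase, mem_sdiff]
    by_cases e1 : v = y₁
    · simp [e1, hW]
    rw [update_of_ne e1]
    exact ⟨fun h => ⟨e1, h.1.2, h.2.2⟩,
      fun h => ⟨⟨fun e => h.2.2 (e ▸ hW), h.2.1⟩, hf.1 v h.2.1, h.2.2⟩⟩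
  obtain ⟨u, u1, u2⟩ := hg
  rw [← e] at u1 u2
  obtain ⟨g, g1, g2, g3, g4, g5⟩ := recol p1 sdiff_subset u1
  have gy : g y₁ = f z := by rw [g2 _ (by simp [hW]), update_self]
  have gA : ∀ v, v ≠ y₁ → f v ∈ A → g v = f v := fun v e1 e2 => by
    rw [g2 _ (by simp [update_of_ne e1, e2]), update_of_ne e1]
  have gB : ∀ v ∈ U, v ≠ y₁ → f v ∉ A → g v ∈ K \ A := fun v hv e1 e2 =>
    g3 v (mem_erase.2 ⟨fun e => e2 (e ▸ hW), hv⟩)
      (by rw [update_of_ne e1]; exact mem_sdiff.2 ⟨hf.1 v hv, e2⟩)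
  obtain ⟨c, hc, c1⟩ := free (G := G) (U := (U.filter (f · ∉ A)).erase y₁) g (R := K \ A) (v := z)
    (by
      rw [filter_erase]
      exact (card_erase_lt_of_mem (mem_filter.2 ⟨mem_filter.2 ⟨hy₁, hy₁'⟩, hz₁⟩)).trans_le hd)
  obtain ⟨cK, cA⟩ := mem_sdiff.1 hc
  have kA : ∀ i ∈ A, i ≠ f z → ∀ v ∈ U, update g z c v = i ↔ f v = i := by
    intro i hi e v hv
    by_cases e1 : v = z
    · rw [e1, update_self]
      exact iff_of_false (fun h => cA (h ▸ hi)) e.symm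
    rw [update_of_ne e1]
    by_cases e2 : v = y₁
    · rw [e2, gy]
      exact iff_of_false e.symm fun h => hy₁' (h ▸ hi)
    by_cases e3 : f v ∈ A
    · rw [gA v e2 e3]
    · exact iff_of_false (fun h => (mem_sdiff.1 (gB v hv e2 e3)).2 (h ▸ hi)) fun h => e3 (h ▸ hi)
  have r1 : ∀ X ∈ A, X ≠ f z → Rc (Mv G U (update g z c)) a K X := fun X h1 h2 => by
    refine ((hT X h1 h2).congr ?_).mono _ ((erase_subset _ _).trans hA)
    rintro P hP Q hQ ⟨v, v1, v2, v3⟩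
    exact ⟨v, v1, (kA P (mem_of_mem_erase hP) (ne_of_mem_erase hP) v v1).2 v2, fun w hw e h =>
      v3 w hw e ((kA Q (mem_of_mem_erase hQ) (ne_of_mem_erase hQ) w hw).1 h)⟩
  have r2 : Rc (Mv G U (update g z c)) a K (f z) := by
    obtain ⟨Y, h1, h2, v, v1, v2, v3⟩ := hw
    have e1 : v ≠ z := fun e => hm Y h1 h2 (e ▸ v3)
    refine (r1 Y h1 h2).head (hA hW) ⟨v, v1, ?_, fun w hw e h => v3 w hw e ((kA Y h1 h2 w hw).1 h)⟩
    rw [update_of_ne e1, gA v (fun e => hy₁' (by rw [← e, v2]; exact hW)) (v2 ▸ hW), v2]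
  have y2 := gB y₂ hy₂ hne.symm hy₂'
  refine ⟨update g z c, c, g1.update cK fun w hw e h => ?_, fun i hi => ?_, cK, fun X hX => ?_,
    g y₂, y2, r2.head (mem_sdiff.1 y2).1 ⟨y₂, hy₂, update_of_ne hz₂.ne' _ _, fun w hw e h => ?_⟩⟩
  · by_cases e2 : w = y₁
    · rw [e2, gy] at h
      exact cA (h ▸ hW)
    by_cases e3 : f w ∈ A
    · rw [gA w e2 e3] at h
      exact cA (h ▸ e3)
    · exact c1 w (mem_erase.2 ⟨e2, mem_filter.2 ⟨hw, e3⟩⟩) e h
  · rw [cnt_update hz]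
    by_cases e : i ∈ K \ A
    · rw [g5 i e, u2 i e, if_neg (fun h : i = a => (mem_sdiff.1 e).2 (h ▸ ha)), add_zero]
    · have hi' : i ∈ A := by simpa [hi] using e
      have y1 : y₁ ∈ U.erase z := mem_erase.2 ⟨hz₁.ne', hy₁⟩
      have a1 := cnt_erase y1 f i
      have a2 := cnt_erase hz f i
      rw [if_neg (fun h : i = f y₁ => hy₁' (h ▸ hi'))] at a1
      rw [g4 i e, cnt_update y1, ← hn i hi']
      omega
  · by_cases e : X = f z
    · rwa [e]
    · exact r1 X hX e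
  · by_cases e1 : w = z
    · rw [e1, update_self] at h
      exact cA (h ▸ hW)
    rw [update_of_ne e1] at h
    by_cases e2 : w = y₁
    · exact hna (e2 ▸ e.symm)
    by_cases e3 : f w ∈ A
    · exact e1 (uniq h₂ hz hz₂.symm rfl hw e (by rw [← gA w e2 e3, h]))
    · exact (mem_sdiff.1 (gB w hw e2 e3)).2 (h ▸ hW)

lemma near (hdeg : ∀ v ∈ U, #{w ∈ U | G.Adj v w} < k) (hs : ∀ i ∈ K, n i ≤ s)
    (hk : k * s ≤ #U) {a : C} (ha : a ∈ K)
    (IH : ∀ (B : Finset V) (R : Finset C) (b : ℕ), #B < #U → (∀ v ∈ B, #{w ∈ B | G.Adj v w} < b) →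
      (∀ i ∈ R, n i ≤ s) → ∑ i ∈ R, n i = #B → b * s ≤ #B → Ex G B R n) (m : ℕ) :
    ∀ (f : V → C) (c : C), Pr G U K f → c ∈ K →
      (∀ i ∈ K, cnt U f i + (if i = a then 1 else 0) = n i + if i = c then 1 else 0) →
      #(K \ K.filter (Rc (Mv G U f) a K)) = m → Ex G U K n := by
  induction m using Nat.strong_induction_on with
  | _ m ih =>
  intro f c hf hc hn hm
  by_cases h0 : Rc (Mv G U f) a K c
  · obtain ⟨g, g1, -, -, -, g5⟩ := shift h0 hf (Subset.refl _)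
    refine ⟨g, g1, fun i hi => ?_⟩
    have := g5 i
    rw [hn i hi] at this
    omega
  obtain ⟨A, hAd⟩ : ∃ A, A = K.filter (Rc (Mv G U f) a K) := ⟨_, rfl⟩
  have mA : ∀ X, X ∈ A ↔ Rc (Mv G U f) a K X := fun X => by
    rw [hAd, mem_filter]; exact ⟨fun h => h.2, fun h => ⟨h.mem, h⟩⟩
  have hA : A ⊆ K := hAd ▸ filter_subset _ _
  have aA : a ∈ A := (mA a).2 (.base _ ha)
  have cA : c ∉ A := fun h => h0 ((mA c).1 h)
  have hn' : ∀ i ∈ A, cnt U f i + (if i = a then 1 else 0) = n i := fun i hi => by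
    rw [hn i (hA hi), if_neg (fun h : i = c => cA (h ▸ hi)), add_zero]
  have hB : ∀ y ∈ U, f y ∉ A → ∀ i ∈ A, ¬ ∀ w ∈ U, G.Adj y w → f w ≠ i := fun y h1 h2 i hi h =>
    h2 ((mA _).2 (((mA i).1 hi).head (hf.1 y h1) ⟨y, h1, rfl, h⟩))
  have s1 : #(U.filter (f · ∉ A)) = ∑ i ∈ K \ A, n i + 1 := by
    have e : U.filter (f · ∉ A) = U.filter (f · ∈ K \ A) :=
      filter_congr fun v hv => by simp [hf.1 v hv]
    rw [e, ← sum_cnt, ← (show (∑ i ∈ K \ A, if i = c then 1 else 0) = 1 by simp [hc, cA]),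
      ← sum_add_distrib]
    refine sum_congr rfl fun i hi => ?_
    rw [← hn i (mem_sdiff.1 hi).1, if_neg (fun h : i = a => (mem_sdiff.1 hi).2 (h ▸ aA)), add_zero]
  have s2 : #(U.filter (f · ∈ A)) + 1 ≤ #A * s := by
    rw [← sum_cnt, ← (show (∑ i ∈ A, if i = a then 1 else 0) = 1 by simp [aA]),
      ← sum_add_distrib, sum_congr rfl hn']
    exact sum_le_card_nsmul _ _ _ fun i hi => hs i (hA hi)
  have s3 := card_filter_add_card_filter_not (s := U) (f · ∈ A)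
  obtain ⟨b, rfl⟩ : ∃ b, k = #A + b := by
    obtain ⟨y, hy⟩ := card_pos.1 (s1 ▸ Nat.succ_pos _ : 0 < #(U.filter (f · ∉ A)))
    obtain ⟨y1, y2⟩ := mem_filter.1 hy
    have := deg2 (hdeg y y1) (Subset.refl A) (hB y y1 y2)
    exact Nat.exists_eq_add_of_le (by omega)
  have hcard : b * s < #(U.filter (f · ∉ A)) := by
    rw [add_mul] at hk
    omega
  have hg : ∀ y ∈ U, f y ∉ A → Ex G ((U.filter (f · ∉ A)).erase y) (K \ A) n := by
    intro y h1 h2
    have e := card_erase_add_one (mem_filter.2 ⟨h1, h2⟩ : y ∈ U.filter (f · ∉ A))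
    refine IH _ _ b (by omega) (fun v hv => ?_) (fun i hi => hs i (mem_sdiff.1 hi).1) (by omega)
      (by omega)
    obtain ⟨v1, v2⟩ := mem_filter.1 (mem_of_mem_erase hv)
    have := deg2 (hdeg v v1) (Subset.refl A) (hB v v1 v2)
    exact lt_of_le_of_lt (card_le_card fun w hw => mem_filter.2
      ⟨mem_of_mem_erase (mem_filter.1 hw).1, (mem_filter.1 hw).2⟩) (Nat.lt_of_add_lt_add_left this)
  have hc' : ∀ i ∈ A, cnt U f i ≤ s := fun i hi => by
    have := hn' i hi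
    have := hs i (hA hi)
    omega
  by_cases h1 : ∃ X, Rc (Mv G U f) a K X ∧ X ≠ a
  swap
  · have e : #A ≤ 1 := card_le_one.2 fun X hX Y hY => by
      push Not at h1
      rw [h1 X ((mA X).1 hX), h1 Y ((mA Y).1 hY)]
    refine (c1 (A := A) (a := a) (s := s) hdeg (fun y y1 y2 => hB y y1 y2 a aA) ?_
      (lt_of_le_of_lt (Nat.mul_le_mul_right _ (by omega)) hcard)).elim
    have := hn' a aA
    have := hs a ha
    simp only [if_true] at *
    omega
  obtain ⟨P, V0, ⟨W, hW⟩, p2, p3, p4⟩ := term ha h1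
  rw [← hAd] at p2 p3
  by_contra hE
  have nm : ∀ z ∈ U, f z ∈ P → ∀ y ∈ U, f y ∉ A → G.Adj z y →
      cnt (U.filter (G.Adj y)) f (f z) = 1 → ∀ X ∈ A, X ≠ f z →
      ¬ ∀ w ∈ U, G.Adj z w → f w ≠ X := fun z z1 z2 y y1 y2 e e1 X x1 x2 h =>
    hE (claim1 hf hA hn' z1 y1 (p2 z2) y2 e e1 ((p3 _ z2).2 X ((mA X).1 x1) x2) h (hg y y1 y2))
  have nd : ∀ z ∈ U, f z ∈ P → ∀ y ∈ U, f y ∉ A → G.Adj z y →
      cnt (U.filter (G.Adj y)) f (f z) = 1 → #((U.filter (f · ∉ A)).filter (G.Adj z)) ≤ b := by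
    intro z z1 z2 y y1 y2 e e1
    have := deg2 (hdeg z z1) (erase_subset (f z) A) fun X hX =>
      nm z z1 z2 y y1 y2 e e1 X (mem_of_mem_erase hX) (ne_of_mem_erase hX)
    have := card_erase_add_one (p2 z2)
    omega
  rcases le_total #P b with h | h
  · refine c2 (fun y y1 y2 => hB y y1 y2 W (p2 hW)) (hc' W (p2 hW)) hcard ?_ fun z z1 z2 => ?_
    · rintro z z1 rfl ⟨y, y1, y2, e, e1⟩
      exact nd z z1 hW y y1 y2 e e1
    · have := deg2 (f := f) (hdeg z z1) ((erase_subset V0 (A \ P)).trans sdiff_subset) fun X hX h =>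
        p4 W hW X ((mA X).1 (mem_sdiff.1 (mem_of_mem_erase hX)).1)
          (mem_sdiff.1 (mem_of_mem_erase hX)).2 (ne_of_mem_erase hX) ⟨z, z1, z2, h⟩
      have e1 := pred_card_le_card_erase (s := A \ P) (a := V0)
      have e2 := card_sdiff_add_card_eq_card p2
      omega
  · obtain ⟨z, z1, z2, y₁, a1, y₂, b1, a2, b2, e1, e2, a3, b3, a4, b4⟩ :=
      c3 hdeg p2 hB hc' hcard h
    obtain ⟨g, c', g1, g2, g3, g4, Y, g5, g6⟩ := claim4 hf hA aA hn' z1 a1 b1 (p2 z2) a2 b2 e1 e2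
      a3 b3 a4 b4 (fun X x1 x2 => (p3 _ z2).2 X ((mA X).1 x1) x2)
      (by
        have := (mA _).1 (p2 z2)
        generalize f z = W at this z2
        cases this with
        | base _ _ => exact absurd rfl (p3 _ z2).1
        | step _ _ Y _ e h =>
          exact ⟨Y, (mA Y).2 (h.mono _ (erase_subset _ _)), ne_of_mem_erase h.mem, e⟩)
      (nm z z1 z2 y₁ a1 a2 a3 a4)
      (by
        refine (nd z z1 z2 y₁ a1 a2 a3 a4).trans (Nat.le_of_mul_le_mul_right (c := s) ?_ ?_)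
        · have : ∑ i ∈ K \ A, n i ≤ #(K \ A) * s :=
            sum_le_card_nsmul _ _ _ fun i hi => hs i (mem_sdiff.1 hi).1
          omega
        · exact Nat.pos_of_ne_zero fun h => by simp [h] at s2)
      (hg y₁ a1 a2)
    refine hE (ih _ ?_ g c' g1 g3 g2 rfl)
    rw [← hm, ← hAd]
    refine card_lt_card ⟨sdiff_subset_sdiff (Subset.refl _) fun X hX =>
      mem_filter.2 ⟨hA hX, g4 X hX⟩, fun h => ?_⟩
    exact (mem_sdiff.1 (h g5)).2 (mem_filter.2 ⟨g6.mem, g6⟩)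

theorem main [Nonempty C] (N : ℕ) : ∀ (G : SimpleGraph V) (U : Finset V) (K : Finset C) (k : ℕ),
    #U = N → (∀ v ∈ U, #{w ∈ U | G.Adj v w} < k) → (∀ i ∈ K, n i ≤ s) → ∑ i ∈ K, n i = #U →
    k * s ≤ #U → Ex G U K n := by
  induction N using Nat.strong_induction_on with
  | _ N ih =>
  intro G U K k hN hdeg hs hsum hk
  obtain ⟨H, hH⟩ : ∃ H : Finset V → SimpleGraph V,
      ∀ D v w, (H D).Adj v w ↔ G.Adj v w ∧ v ∈ D ∧ w ∈ D :=
    ⟨fun D =>
      { Adj := fun v w => G.Adj v w ∧ v ∈ D ∧ w ∈ D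
        symm := ⟨fun _ _ h => ⟨h.1.symm, h.2.2, h.2.1⟩⟩
        loopless := ⟨fun _ h => h.1.ne rfl⟩ }, fun _ _ _ => Iff.rfl⟩
  have key : ∀ D : Finset V, D ⊆ U → Ex (H D) U K n := by
    intro D
    induction D using Finset.induction_on with
    | empty =>
      obtain ⟨f, f1, f2⟩ := start U n hsum
      exact fun _ => ⟨f, ⟨f1, fun v _ w _ h => absurd ((hH _ _ _).1 h).2.1 (notMem_empty _)⟩, f2⟩
    | insert x D _ ih2 =>
      intro hD
      obtain ⟨f, f1, f2⟩ := ih2 ((subset_insert _ _).trans hD)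
      have hx := hD (mem_insert_self _ _)
      have hd : ∀ v ∈ U, #{w ∈ U | (H (insert x D)).Adj v w} < k := fun v hv =>
        lt_of_le_of_lt (card_le_card (monotone_filter_right _ fun w _ h => ((hH _ _ _).1 h).1))
          (hdeg v hv)
      have h1 : ∑ i ∈ K, n i ≤ #K * s := sum_le_card_nsmul _ _ _ hs
      have h2 := card_pos.2 ⟨x, hx⟩
      obtain ⟨c, hc, c1⟩ := free (R := K) f ((hd x hx).trans_le
        (Nat.le_of_mul_le_mul_right (c := s) (hk.trans (hsum ▸ h1))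
          (Nat.pos_of_ne_zero fun h => by rw [h] at h1; omega)))
      refine near hd hs hk (f1.1 x hx) (fun B R b e => ih _ (hN ▸ e) _ B R b rfl) _
        (update f x c) c (Pr.update ⟨fun v hv => f1.1 v (mem_of_mem_erase hv),
          fun v hv w hw e => f1.2 v (mem_of_mem_erase hv) w (mem_of_mem_erase hw)
            ((hH _ _ _).2 ⟨((hH _ _ _).1 e).1,
            (mem_insert.1 ((hH _ _ _).1 e).2.1).resolve_left (ne_of_mem_erase hv),
            (mem_insert.1 ((hH _ _ _).1 e).2.2).resolve_left (ne_of_mem_erase hw)⟩)⟩ hc c1) hc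
        (fun i hi => ?_) rfl
      rw [cnt_update hx, ← f2 i hi, cnt_erase hx f]
      ring
  obtain ⟨f, f1, f2⟩ := key U (Subset.refl _)
  exact ⟨f, ⟨f1.1, fun v hv w hw e => f1.2 v hv w hw ((hH _ _ _).2 ⟨e, hv, hw⟩)⟩, f2⟩

end Pool.Agent.H.MP_2870db_co
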